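import Pool.Agent.KS6_47.SJ.H227.ENJ.Defs

set_option autoImplicit false

open FirstOrder FirstOrder.Language

namespace Pool.Agent.KS6_47.SJ.H227.EN


section realiz
variable {M : Type} [LA.Structure M]

theorem ea_t0 {α : Type} (v : α → M) :
    (t0 : LA.Term α).realize v = Structure.funMap (L := LA) AF.zero ![] := by
  have h : (default : Fin 0 → M) = ![] := Subsingleton.elim _ _
  rw [← h]
  exact Term.realize_constants (L := LA) (c := AF.zero)

theorem ea_t1 {α : Type} (v : α → M) :
    (t1 : LA.Term α).realize v = Structure.funMap (L := LA) AF.one ![] := by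
  have h : (default : Fin 0 → M) = ![] := Subsingleton.elim _ _
  rw [← h]
  exact Term.realize_constants (L := LA) (c := AF.one)

theorem ea_tadd {α : Type} (v : α → M) (s t : LA.Term α) :
    (tadd s t).realize v = Structure.funMap (L := LA) AF.add ![s.realize v, t.realize v] :=
  Term.realize_functions_apply₂ (L := LA) (f := AF.add)

theorem ea_tmul {α : Type} (v : α → M) (s t : LA.Term α) :
    (tmul s t).realize v = Structure.funMap (L := LA) AF.mul ![s.realize v, t.realize v] :=
  Term.realize_functions_apply₂ (L := LA) (f := AF.mul)

theorem ea_flt {α : Type} {n : ℕ} (v : α → M) (xs : Fin n → M) (s t : LA.Term (α ⊕ Fin n)) :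
    (flt s t).Realize v xs ↔ Structure.RelMap (L := LA) AR.lt
      ![s.realize (Sum.elim v xs), t.realize (Sum.elim v xs)] :=
  BoundedFormula.realize_rel₂ (L := LA) (R := AR.lt)

end realiz

/-- the axioms, as statements about a structure -/
structure EaAx (M : Type) (z o : M) (ad mu : M → M → M) (lt : M → M → Prop) : Prop where
  aa : ∀ x y w, ad (ad x y) w = ad x (ad y w)
  ac : ∀ x y, ad x y = ad y x
  ma : ∀ x y w, mu (mu x y) w = mu x (mu y w)
  mc : ∀ x y, mu x y = mu y x
  di : ∀ x y w, mu x (ad y w) = ad (mu x y) (mu x w)
  az : ∀ x, ad x z = x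
  mz : ∀ x, mu x z = z
  mo : ∀ x, mu x o = x
  tr : ∀ x y w, lt x y → lt y w → lt x w
  ir : ∀ x, ¬ lt x x
  tot : ∀ x y, lt x y ∨ x = y ∨ lt y x
  la : ∀ x y w, lt x y → lt (ad x w) (ad y w)
  lm : ∀ x y w, lt z w → lt x y → lt (mu x w) (mu y w)
  df : ∀ x y, lt x y → ∃ w, ad x w = y
  zo : lt z o
  ds : ∀ x, lt z x → lt o x ∨ o = x
  nn : ∀ x, lt z x ∨ z = x

theorem ea_ax (M : Type) [LA.Structure M] [Nonempty M] (h : M ⊨ PAminus) :
    EaAx M (Structure.funMap (L := LA) AF.zero ![]) (Structure.funMap (L := LA) AF.one ![])
      (fun x y => Structure.funMap (L := LA) AF.add ![x, y])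
      (fun x y => Structure.funMap (L := LA) AF.mul ![x, y])
      (fun x y => Structure.RelMap (L := LA) AR.lt ![x, y]) := by
  simp only [PAminus, axAddAssoc, axAddComm, axMulAssoc, axMulComm, axDistrib, axAddZero, axMulZero, axMulOne, axLtTrans, axLtIrrefl, axLtTotal, axAddLt, axMulLt, axDiff, axZeroLtOne, axDiscrete, axNonneg, Theory.model_iff, Set.mem_insert_iff, Set.mem_singleton_iff,
    forall_eq_or_imp, forall_eq, Sentence.Realize, Formula.Realize, BoundedFormula.realize_all,
    BoundedFormula.realize_bdEqual, BoundedFormula.realize_imp, BoundedFormula.realize_not,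
    BoundedFormula.realize_sup, BoundedFormula.realize_ex, ea_t0, ea_t1, ea_tadd, ea_tmul, ea_flt,
    Term.realize_var, Sum.elim_inr] at h
  obtain ⟨h1, h2, h3, h4, h5, h6, h7, h8, h9, h10, h11, h12, h13, h14, h15, h16, h17⟩ := h
  exact ⟨h1, h2, h3, h4, h5, h6, h7, h8, h9, h10, h11, h12, h13, h14, h15, h16, h17⟩

/-- TARGET: a model of `PA⁻` is the nonnegative part of a discretely ordered ring, in Mathlib terms. -/
theorem exists_alg (M : Type) [LA.Structure M] [Nonempty M] (h : M ⊨ PAminus) :
    ∃ (_ : CommSemiring M) (_ : LinearOrder M) (_ : IsStrictOrderedRing M)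
      (_ : CanonicallyOrderedAdd M), Compat M := by
  classical
  have H := ea_ax M h
  let z : M := Structure.funMap (L := LA) AF.zero ![]
  let o : M := Structure.funMap (L := LA) AF.one ![]
  let ad : M → M → M := fun x y => Structure.funMap (L := LA) AF.add ![x, y]
  let mu : M → M → M := fun x y => Structure.funMap (L := LA) AF.mul ![x, y]
  let lt : M → M → Prop := fun x y => Structure.RelMap (L := LA) AR.lt ![x, y]
  have H' : EaAx M z o ad mu lt := H
  let iS : CommSemiring M :=
    { add := ad
      mul := mu
      zero := z
      one := o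
      nsmul := fun n x => Nat.rec z (fun _ y => ad y x) n
      nsmul_zero := fun x => rfl
      nsmul_succ := fun n x => rfl
      npow := fun n x => Nat.rec o (fun _ y => mu y x) n
      npow_zero := fun x => rfl
      npow_succ := fun n x => rfl
      natCast := fun n => Nat.rec z (fun _ y => ad y o) n
      natCast_zero := rfl
      natCast_succ := fun n => rfl
      add_assoc := H'.aa
      zero_add := fun x => (H'.ac z x).trans (H'.az x)
      add_zero := H'.az
      add_comm := H'.ac
      mul_assoc := H'.ma
      one_mul := fun x => (H'.mc o x).trans (H'.mo x)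
      mul_one := H'.mo
      mul_comm := H'.mc
      zero_mul := fun x => (H'.mc z x).trans (H'.mz x)
      mul_zero := H'.mz
      left_distrib := H'.di
      right_distrib := fun x y w => by
        change mu (ad x y) w = ad (mu x w) (mu y w)
        rw [H'.mc, H'.di, H'.mc w x, H'.mc w y] }
  let iL : LinearOrder M :=
    { le := fun x y => lt x y ∨ x = y
      lt := lt
      le_refl := fun x => Or.inr rfl
      le_trans := by
        rintro x y w (h1 | h1) (h2 | h2)
        · exact Or.inl (H'.tr x y w h1 h2)
        · exact Or.inl (h2 ▸ h1)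
        · exact Or.inl (h1 ▸ h2)
        · exact Or.inr (h1.trans h2)
      lt_iff_le_not_ge := by
        intro x y
        constructor
        · intro h1
          refine ⟨Or.inl h1, ?_⟩
          rintro (h2 | h2)
          · exact H'.ir x (H'.tr x y x h1 h2)
          · exact H'.ir x (by rw [h2] at h1; rw [h2] at *; exact h1)
        · rintro ⟨h1 | h1, h2⟩
          · exact h1
          · exact absurd (Or.inr h1.symm) h2
      le_antisymm := by
        rintro x y (h1 | h1) (h2 | h2)
        · exact absurd (H'.tr x y x h1 h2) (H'.ir x)
        · exact h2.symm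
        · exact h1
        · exact h1
      le_total := by
        intro x y
        rcases H'.tot x y with h1 | h1 | h1
        · exact Or.inl (Or.inl h1)
        · exact Or.inl (Or.inr h1)
        · exact Or.inr (Or.inl h1)
      toDecidableLE := Classical.decRel _ }
  have hlt : ∀ x y : M, x < y ↔ lt x y := fun x y => Iff.rfl
  have hle : ∀ x y : M, x ≤ y ↔ lt x y ∨ x = y := fun x y => Iff.rfl
  have h0 : ∀ x : M, 0 ≤ x := by
    intro x
    exact H'.nn x
  have hzo : (0 : M) < 1 := H'.zo
  have haddr : ∀ x y w : M, x < y → x + w < y + w := fun x y w h => H'.la x y w h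
  have haddr' : ∀ x y : M, x ≤ y → ∀ w, x + w ≤ y + w := by
    intro x y hxy w
    rcases hxy with h | h
    · exact (haddr x y w h).le
    · rw [h]
  have hmulr : ∀ x y w : M, 0 < w → x < y → x * w < y * w := fun x y w hw h => H'.lm x y w hw h
  have iO : IsStrictOrderedRing M := by
    exact
      { add_le_add_left := haddr'
        le_of_add_le_add_left := by
          intro x y w hxy
          rcases H'.tot y w with h1 | h1 | h1
          · exact Or.inl h1
          · exact Or.inr h1
          · exfalso
            have h2 := haddr w y x h1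
            rw [add_comm w x, add_comm y x] at h2
            exact absurd h2 (not_lt.mpr hxy)
        zero_le_one := hzo.le
        exists_pair_ne := ⟨0, 1, hzo.ne⟩
        mul_lt_mul_of_pos_left := by
          intro w hw x y hxy
          change w * x < w * y
          rw [mul_comm w x, mul_comm w y]
          exact hmulr x y w hw hxy
        mul_lt_mul_of_pos_right := by
          intro w hw x y hxy
          exact hmulr x y w hw hxy }
  have iC : CanonicallyOrderedAdd M :=
    { exists_add_of_le := by
        intro x y hxy
        rcases hxy with h | h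
        · obtain ⟨w, hw⟩ := H'.df x y h
          exact ⟨w, hw.symm⟩
        · exact ⟨0, by rw [h, add_zero]⟩
      le_self_add := by
        intro x y
        have h2 := haddr' 0 y (h0 y) x
        rw [zero_add, add_comm y x] at h2
        exact h2
      le_add_self := by
        intro x y
        have h2 := haddr' 0 y (h0 y) x
        rw [zero_add] at h2
        exact h2 }
  refine ⟨iS, iL, iO, iC, ?_⟩
  exact
    { zero := rfl
      one := rfl
      add := fun x y => rfl
      mul := fun x y => rfl
      lt := fun x y => Iff.rfl
      disc := by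
        intro x hx
        rcases (h0 x) with h | h
        · rcases H'.ds x h with h2 | h2
          · exact absurd (H'.tr _ _ _ h2 hx) (H'.ir _)
          · rw [← h2] at hx
            exact absurd hx (H'.ir _)
        · exact h.symm }


end Pool.Agent.KS6_47.SJ.H227.EN
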